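import Pool.Agent.Helper20.IIC.Stmts

/-! # Module CPT -/

namespace IIC

open Filter Topology Set MeasureTheory

theorem cpt_countable (d : ℕ) : Countable (Ed d) := by
  have h1 : Countable (Sym2 (Fin d → ℤ)) := by
    unfold Sym2
    infer_instance
  infer_instance

/-- cylinder events are clopen -/
theorem cpt_clopen {d : ℕ} {A : Set (Cfg d)} (h : IsCyl A) : IsClopen A := by
  classical
  obtain ⟨F, hF⟩ := h
  let r : Cfg d → (F → Bool) := fun ω e => ω e
  have hr : Continuous r := continuous_pi fun e => continuous_apply _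
  have hA : A = r ⁻¹' (r '' A) := by
    ext ω
    constructor
    · exact fun h => ⟨ω, h, rfl⟩
    · rintro ⟨ω', hω', h⟩
      refine (hF ω' ω fun e he => ?_).1 hω'
      exact congrFun h ⟨e, he⟩
  rw [hA]
  exact (isClopen_discrete _).preimage hr

theorem st_CPT : ST_CPT := by
  intro d ι l hl μ hμ hlim
  have hc := cpt_countable d
  let P : ι → ProbabilityMeasure (Cfg d) := fun i => ⟨μ i, hμ i⟩
  let u : Ultrafilter ι := Ultrafilter.of l
  have hu : (u : Filter ι) ≤ l := Ultrafilter.of_le l
  obtain ⟨ν, -, hν⟩ := isCompact_univ.ultrafilter_le_nhds (u.map P) (by simp)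
  have ht : Tendsto P u (𝓝 ν) := hν
  refine ⟨ν, inferInstance, fun A hA => ?_⟩
  obtain ⟨L, hL⟩ := hlim A hA
  have h1 : Tendsto (fun i => (P i : Measure (Cfg d)) A) u (𝓝 ((ν : Measure (Cfg d)) A)) :=
    ProbabilityMeasure.tendsto_measure_of_null_frontier_of_tendsto' ht
      (by rw [(cpt_clopen hA).frontier_eq]; simp)
  have h2 : Tendsto (fun i => (μ i).real A) u (𝓝 ((ν : Measure (Cfg d)).real A)) :=
    (ENNReal.tendsto_toReal (measure_ne_top _ _)).comp h1
  have h3 := tendsto_nhds_unique h2 (hL.mono_left hu)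
  rw [h3]
  exact hL

end IIC
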